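import Pool.Agent.H800R2.Front

set_option autoImplicit false

open Set Filter Topology

namespace Pool.Agent.W697.Room

open Pool.Agent.H800R2
open scoped RealInnerProductSpace ContDiff

/-! ### the rounding function -/

/-- a smooth nondecreasing function, zero up to `-1/32`, strictly increasing afterwards, with
value `1` at `0` -/
noncomputable def th (t : ℝ) : ℝ := Real.exp 32 * expNegInvGlue (t + 1 / 32)

/-- its derivative -/
noncomputable def dth (t : ℝ) : ℝ :=
  Real.exp 32 * (((t + 1 / 32)⁻¹) ^ 2 * expNegInvGlue (t + 1 / 32))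

theorem th_contDiff : ContDiff ℝ ∞ th := by
  unfold th
  exact contDiff_const.mul (expNegInvGlue.contDiff.comp (contDiff_id.add contDiff_const))

theorem th_hasDerivAt (t : ℝ) : HasDerivAt th (dth t) t := by
  have h := expNegInvGlue.hasDerivAt_polynomial_eval_inv_mul 1 (t + 1 / 32)
  simp only [Polynomial.eval_one, one_mul, Polynomial.derivative_one, sub_zero, mul_one,
    Polynomial.eval_pow, Polynomial.eval_X] at h
  have h2 : HasDerivAt (fun t : ℝ => t + 1 / 32) 1 t := (hasDerivAt_id t).add_const _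
  have h3 := (h.comp t h2).const_mul (Real.exp 32)
  rw [mul_one] at h3
  exact h3

theorem th_nonneg (t : ℝ) : 0 ≤ th t := mul_nonneg (Real.exp_pos _).le (expNegInvGlue.nonneg _)

theorem th_eq_zero {t : ℝ} (h : t ≤ -1 / 32) : th t = 0 := by
  unfold th
  rw [expNegInvGlue.zero_of_nonpos (by linarith), mul_zero]

theorem th_mono : Monotone th := fun a b h =>
  mul_le_mul_of_nonneg_left (expNegInvGlue.monotone (by linarith)) (Real.exp_pos _).le

theorem th_pos {t : ℝ} (h : -1 / 32 < t) : 0 < th t :=
  mul_pos (Real.exp_pos _) (expNegInvGlue.pos_of_pos (by linarith))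

theorem th_strict {a b : ℝ} (h : -1 / 32 < b) (hab : a < b) : th a < th b := by
  rcases le_or_gt a (-1 / 32) with h1 | h1
  · rw [th_eq_zero h1]; exact th_pos h
  · unfold th
    refine mul_lt_mul_of_pos_left ?_ (Real.exp_pos _)
    unfold expNegInvGlue
    rw [if_neg (by linarith), if_neg (by linarith)]
    refine Real.exp_lt_exp.2 ?_
    rw [neg_lt_neg_iff]
    exact inv_strictAnti₀ (by linarith) (by linarith)

theorem th_zero : th 0 = 1 := by
  unfold th expNegInvGlue
  rw [if_neg (by norm_num), ← Real.exp_add]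
  norm_num

theorem th_lt_one {t : ℝ} : th t < 1 ↔ t < 0 := by
  constructor
  · intro h
    by_contra hc
    push Not at hc
    have := th_mono hc
    rw [th_zero] at this
    linarith
  · intro h
    rw [← th_zero]
    exact th_strict (by norm_num) h

theorem th_le_one {t : ℝ} : th t ≤ 1 ↔ t ≤ 0 := by
  constructor
  · intro h
    by_contra hc
    push Not at hc
    have := th_strict (by linarith) hc
    rw [th_zero] at this
    linarith
  · intro h
    rw [← th_zero]
    exact th_mono h

theorem th_eq_one {t : ℝ} : th t = 1 ↔ t = 0 := by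
  constructor
  · intro h
    refine le_antisymm (th_le_one.1 h.le) ?_
    by_contra hc
    push Not at hc
    have := th_lt_one.2 hc
    linarith
  · rintro rfl
    exact th_zero

theorem dth_nonneg (t : ℝ) : 0 ≤ dth t := by
  unfold dth
  have := expNegInvGlue.nonneg (t + 1 / 32)
  have := Real.exp_pos 32
  positivity

theorem dth_pos {t : ℝ} (h : -1 / 32 < t) : 0 < dth t := by
  unfold dth
  have h1 : 0 < t + 1 / 32 := by linarith
  have := expNegInvGlue.pos_of_pos h1
  have := Real.exp_pos 32
  positivity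

/-! ### the room -/

variable {n : ℕ}

/-- the height -/
noncomputable def ht (e p : Euc n) : ℝ := ⟪e, p⟫

/-- the square of the distance from the axis -/
noncomputable def S (e p : Euc n) : ℝ := ‖p‖ ^ 2 - (ht e p) ^ 2

/-- the spheroid of the upper (`σ = 1`) or lower (`σ = -1`) half -/
noncomputable def U (e : Euc n) (σ : ℝ) (p : Euc n) : ℝ :=
  S e p / 2 + (σ * ht e p - 1 / 2) ^ 2 - 1

/-- the ring between the pockets and the channel -/
noncomputable def V (e p : Euc n) : ℝ :=
  S e p * (1 / 4 - (ht e p) ^ 2) - (S e p - 1) ^ 2 / 2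

/-- the function defining the room -/
noncomputable def f (e p : Euc n) : ℝ :=
  th (S e p / 2 + (|ht e p| - 1 / 2) ^ 2 - 1) + th (V e p)

/-- the room -/
def room (e : Euc n) : Set (Euc n) := {p | f e p < 1}

theorem ht_contDiff (e : Euc n) : ContDiff ℝ ∞ (ht e) := by
  unfold ht
  exact contDiff_const.inner ℝ contDiff_id

theorem S_contDiff (e : Euc n) : ContDiff ℝ ∞ (S e) := by
  unfold S
  exact (contDiff_norm_sq ℝ).sub ((ht_contDiff e).pow 2)

theorem U_contDiff (e : Euc n) (σ : ℝ) : ContDiff ℝ ∞ (U e σ) := by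
  unfold U
  exact (((S_contDiff e).div_const 2).add
    (((contDiff_const.mul (ht_contDiff e)).sub contDiff_const).pow 2)).sub contDiff_const

theorem V_contDiff (e : Euc n) : ContDiff ℝ ∞ (V e) := by
  unfold V
  exact ((S_contDiff e).mul (contDiff_const.sub ((ht_contDiff e).pow 2))).sub
    ((((S_contDiff e).sub contDiff_const).pow 2).div_const 2)

theorem f_continuous (e : Euc n) : Continuous (f e) := by
  have h1 := (ht_contDiff e).continuous
  have h2 := (S_contDiff e).continuous
  have h3 := (V_contDiff e).continuous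
  have h4 := th_contDiff.continuous
  unfold f
  fun_prop

theorem room_open (e : Euc n) : IsOpen (room e) :=
  isOpen_lt (f_continuous e) continuous_const

theorem S_nonneg {e : Euc n} (he : ‖e‖ = 1) (p : Euc n) : 0 ≤ S e p := by
  have h := abs_real_inner_le_norm e p
  rw [he, one_mul] at h
  have h2 : (ht e p) ^ 2 ≤ ‖p‖ ^ 2 := by
    unfold ht
    rw [← sq_abs]
    exact pow_le_pow_left₀ (abs_nonneg _) h 2
  unfold S
  linarith

/-- `f` with the sign -/
theorem f_eq {e : Euc n} {σ : ℝ} (hσ : σ ^ 2 = 1) {p : Euc n} (h : 0 ≤ σ * ht e p) :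
    f e p = th (U e σ p) + th (V e p) := by
  have h1 : |ht e p| = σ * ht e p := by
    have h2 : |σ| = 1 := by
      rw [← sq_eq_sq₀ (abs_nonneg _) zero_le_one, sq_abs, hσ, one_pow]
    rw [← abs_of_nonneg h, abs_mul, h2, one_mul]
  unfold f U
  rw [h1]

/-- the function with absolute value equals one of the two -/
theorem exists_sign (e p : Euc n) : ∃ σ : ℝ, σ ^ 2 = 1 ∧ 0 ≤ σ * ht e p := by
  rcases le_total 0 (ht e p) with h | h
  · exact ⟨1, by norm_num, by linarith⟩
  · exact ⟨-1, by norm_num, by linarith⟩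

theorem mem_room_iff {e : Euc n} {σ : ℝ} (hσ : σ ^ 2 = 1) {p : Euc n} (h : 0 ≤ σ * ht e p) :
    p ∈ room e ↔ th (U e σ p) + th (V e p) < 1 := by
  unfold room
  rw [mem_setOf_eq, f_eq hσ h]

theorem room_V {e p : Euc n} (h : p ∈ room e) : V e p < 0 := by
  have h1 : f e p < 1 := h
  have h2 := th_nonneg (S e p / 2 + (|ht e p| - 1 / 2) ^ 2 - 1)
  unfold f at h1
  exact th_lt_one.1 (by linarith)

theorem room_U {e p : Euc n} {σ : ℝ} (hσ : σ ^ 2 = 1) (hs : 0 ≤ σ * ht e p) (h : p ∈ room e) :
    U e σ p < 0 := by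
  rw [mem_room_iff hσ hs] at h
  have h2 := th_nonneg (V e p)
  exact th_lt_one.1 (by linarith)

theorem closure_f {e p : Euc n} (h : p ∈ closure (room e)) : f e p ≤ 1 :=
  closure_lt_subset_le (f_continuous e) continuous_const h

theorem frontier_f {e p : Euc n} (h : p ∈ frontier (room e)) : f e p = 1 := by
  rw [(room_open e).frontier_eq] at h
  exact le_antisymm (closure_f h.1) (not_lt.1 h.2)

theorem closure_V {e p : Euc n} (h : p ∈ closure (room e)) : V e p ≤ 0 := by
  have h1 := closure_f h
  have h2 := th_nonneg (S e p / 2 + (|ht e p| - 1 / 2) ^ 2 - 1)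
  unfold f at h1
  exact th_le_one.1 (by linarith)

theorem closure_U {e p : Euc n} {σ : ℝ} (hσ : σ ^ 2 = 1) (hs : 0 ≤ σ * ht e p)
    (h : p ∈ closure (room e)) : U e σ p ≤ 0 := by
  have h1 := closure_f h
  rw [f_eq hσ hs] at h1
  have h2 := th_nonneg (V e p)
  exact th_le_one.1 (by linarith)

/-- no point of the closure of the room is on the ring cylinder below the tip -/
theorem closure_ring {e p : Euc n} (h : p ∈ closure (room e)) (hS : S e p = 1) :
    1 / 4 ≤ (ht e p) ^ 2 := by
  have h1 := closure_V h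
  unfold V at h1
  rw [hS] at h1
  linarith

/-- no point of the closure of the room is in the middle plane outside the channel -/
theorem closure_middle {e p : Euc n} (h : p ∈ closure (room e)) (hy : ht e p = 0) :
    S e p ≤ 1 / 2 := by
  have h1 := closure_V h
  have h2 := closure_U (σ := 1) (by norm_num) (by rw [hy]; norm_num) h
  unfold V at h1
  unfold U at h2
  rw [hy] at h1 h2
  by_contra hc
  push Not at hc
  nlinarith

/-- above the tips the room is a half of a spheroid -/
theorem above {e p : Euc n} {σ : ℝ} (he : ‖e‖ = 1) (hσ : σ ^ 2 = 1) (hy : 1 / 2 ≤ σ * ht e p)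
    (hV : -1 / 32 ≤ V e p) : U e σ p < -1 / 32 := by
  have hS := S_nonneg he p
  have hy2 : (ht e p) ^ 2 = (σ * ht e p) ^ 2 := by rw [mul_pow, hσ, one_mul]
  unfold V at hV
  unfold U
  rw [hy2] at hV
  set y := σ * ht e p with hy'
  set s := S e p with hs
  have h1 : 0 ≤ s * (y ^ 2 - 1 / 4) := mul_nonneg hS (by nlinarith)
  have h2 : (s - 1) ^ 2 ≤ 1 / 16 := by nlinarith
  have h3 : 3 / 4 ≤ s := by nlinarith
  have h4 : s ≤ 5 / 4 := by nlinarith
  have h5 : y ^ 2 - 1 / 4 ≤ 1 / 24 := by nlinarith
  have h6 : y - 1 / 2 ≤ 1 / 24 := by nlinarith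
  nlinarith

theorem above_V {e p : Euc n} {σ : ℝ} (he : ‖e‖ = 1) (hσ : σ ^ 2 = 1) (hy : 1 / 2 < σ * ht e p) :
    V e p < 0 := by
  have hS := S_nonneg he p
  have hy2 : (ht e p) ^ 2 = (σ * ht e p) ^ 2 := by rw [mul_pow, hσ, one_mul]
  unfold V
  rw [hy2]
  set y := σ * ht e p with hy'
  set s := S e p with hs
  have h0 : 1 / 4 < y ^ 2 := by nlinarith
  rcases hS.eq_or_lt with h | h
  · rw [← h]; norm_num
  · nlinarith [sq_nonneg (s - 1), mul_pos h (sub_pos.2 h0)]

theorem above_iff {e p : Euc n} {σ : ℝ} (he : ‖e‖ = 1) (hσ : σ ^ 2 = 1)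
    (hy : 1 / 2 < σ * ht e p) : p ∈ room e ↔ U e σ p < 0 := by
  rw [mem_room_iff hσ (by linarith)]
  rcases le_or_gt (V e p) (-1 / 32) with h | h
  · rw [th_eq_zero h, add_zero, th_lt_one]
  · have h1 := above he hσ hy.le h.le
    rw [th_eq_zero h1.le, zero_add, th_lt_one]
    have h2 := above_V he hσ hy
    constructor
    · intro _; linarith
    · intro _; exact h2

end Pool.Agent.W697.Room
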