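import Pool.Agent.W697.Room.Smooth

set_option autoImplicit false

open Set Filter Topology

namespace Pool.Agent.W697.Room

open Pool.Agent.H800R2
open scoped RealInnerProductSpace ContDiff

variable {n : ℕ}

theorem inner_e_ht (e p : Euc n) : ⟪e, p⟫ = ht e p := rfl

theorem inner_ee {e : Euc n} (he : ‖e‖ = 1) : ⟪e, e⟫ = 1 := by
  rw [real_inner_self_eq_norm_sq, he, one_pow]

/-- `U` is a defining function where the ring is far away -/
theorem def_U {e x : Euc n} {σ : ℝ} (he : ‖e‖ = 1) (hσ : σ ^ 2 = 1) (hy : 0 < σ * ht e x)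
    (hV : V e x < -1 / 32) (hU : U e σ x = 0) : IsDefFun (room e) x (U e σ) := by
  refine ⟨U_contDiff e σ, ?_, ?_⟩
  · rw [(hasGradientAt_U e hσ x).gradient]
    intro h0
    have h1 : ⟪x - (σ / 2) • e, x + (ht e x - σ) • e⟫ = 2 := by
      simp only [inner_sub_left, inner_add_right, inner_smul_left, inner_smul_right,
        RCLike.conj_to_real, inner_ee he, real_inner_self_eq_norm_sq x]
      rw [real_inner_comm e x, inner_e_ht e x]
      unfold U S at hU
      linear_combination 2 * hU + (1 / 2 - 2 * (ht e x) ^ 2) * hσ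
    rw [h0, inner_zero_right] at h1
    norm_num at h1
  · have c1 : Continuous (V e) := (V_contDiff e).continuous
    have c2 : Continuous (fun p => σ * ht e p) := continuous_const.mul (ht_contDiff e).continuous
    filter_upwards [c1.continuousAt.eventually (gt_mem_nhds hV),
      c2.continuousAt.eventually (lt_mem_nhds hy)] with z h1 h2
    rw [mem_room_iff hσ h2.le, th_eq_zero h1.le, add_zero, th_lt_one]

/-- `V` is a defining function where the spheroids are far away -/
theorem def_V {e x : Euc n} (he : ‖e‖ = 1)
    (hU : S e x / 2 + (|ht e x| - 1 / 2) ^ 2 - 1 < -1 / 32) (hV : V e x = 0) :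
    IsDefFun (room e) x (V e) := by
  refine ⟨V_contDiff e, ?_, ?_⟩
  · rw [(hasGradientAt_V e x).gradient]
    intro h0
    have h1 : ⟪e, ((1 / 4 - (ht e x) ^ 2) - (S e x - 1)) • ((2 : ℝ) • x - (2 * ht e x) • e)
      - (2 * ht e x * S e x) • e⟫ = - (2 * ht e x * S e x) := by
      simp only [inner_sub_right, inner_smul_right, inner_ee he, inner_e_ht e x]
      ring
    rw [h0, inner_zero_right] at h1
    have hS0 : S e x ≠ 0 := by
      intro hS
      unfold V at hV
      rw [hS] at hV
      norm_num at hV
    have hy0 : ht e x = 0 := by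
      rcases mul_eq_zero.1 (neg_eq_zero.1 h1.symm) with h2 | h2
      · rcases mul_eq_zero.1 h2 with h3 | h3
        · norm_num at h3
        · exact h3
      · exact absurd h2 hS0
    have h2 : ⟪x, ((1 / 4 - (ht e x) ^ 2) - (S e x - 1)) • ((2 : ℝ) • x - (2 * ht e x) • e)
      - (2 * ht e x * S e x) • e⟫ = (5 / 4 - S e x) * (2 * S e x) := by
      simp only [inner_sub_right, inner_smul_right]
      rw [real_inner_comm e x, inner_e_ht e x, hy0, real_inner_self_eq_norm_sq x]
      have : S e x = ‖x‖ ^ 2 := by unfold S; rw [hy0]; ring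
      rw [this]
      ring
    rw [h0, inner_zero_right] at h2
    have h3 : 5 / 4 - S e x = 0 := by
      rcases mul_eq_zero.1 h2.symm with h4 | h4
      · exact h4
      · rcases mul_eq_zero.1 h4 with h5 | h5
        · norm_num at h5
        · exact absurd h5 hS0
    unfold V at hV
    rw [hy0, show S e x = 5 / 4 by linarith] at hV
    norm_num at hV
  · have c1 : Continuous (V e) := (V_contDiff e).continuous
    have c2 : Continuous (fun p => S e p / 2 + (|ht e p| - 1 / 2) ^ 2 - 1) := by
      have := (ht_contDiff e).continuous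
      have := (S_contDiff e).continuous
      fun_prop
    filter_upwards [c2.continuousAt.eventually (gt_mem_nhds hU)] with z h1
    change f e z < 1 ↔ _
    unfold f
    rw [th_eq_zero h1.le, zero_add, th_lt_one]

/-- the general defining function -/
theorem def_f {e x : Euc n} {σ : ℝ} (he : ‖e‖ = 1) (hσ : σ ^ 2 = 1) (hy : 0 < σ * ht e x)
    (hf : th (U e σ x) + th (V e x) = 1) (hV : -1 / 32 ≤ V e x) (hU : -1 / 32 ≤ U e σ x) :
    IsDefFun (room e) x (fun p => th (U e σ p) + th (V e p) - 1) := by
  have hS := S_nonneg he x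
  have hS0 : 0 < S e x := by
    rcases hS.eq_or_lt with h | h
    · unfold V at hV
      rw [← h] at hV
      norm_num at hV
    · exact h
  have hy1 : σ * ht e x < 1 / 2 := by
    by_contra hc
    push Not at hc
    have := above he hσ hc hV
    linarith
  refine ⟨?_, ?_, ?_⟩
  · exact ((th_contDiff.comp (U_contDiff e σ)).add (th_contDiff.comp (V_contDiff e))).sub
      contDiff_const
  · have h1 := hasGradientAt_U e hσ x
    have h2 := hasGradientAt_V e x
    rw [hasGradientAt_iff_hasFDerivAt] at h1 h2
    have h3 := ((th_hasDerivAt (U e σ x)).comp_hasFDerivAt x h1).add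
      ((th_hasDerivAt (V e x)).comp_hasFDerivAt x h2)
    have h4 := h3.sub_const 1
    intro h0
    have h5 : fderiv ℝ (fun p => th (U e σ p) + th (V e p) - 1) x = 0 := by
      have := congrArg (InnerProductSpace.toDual ℝ (Euc n)) h0
      unfold gradient at this
      rwa [LinearIsometryEquiv.apply_symm_apply, map_zero] at this
    have h6 := h4.fderiv
    have h7 := congrArg (fun L => L (σ • e)) (h6.symm.trans h5)
    simp only [add_apply, smul_apply, smul_eq_mul, InnerProductSpace.toDual_apply_apply,
      inner_smul_left, inner_smul_right, inner_sub_left, inner_add_left, inner_ee he,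
      RCLike.conj_to_real, zero_apply] at h7
    rw [real_inner_comm e x, inner_e_ht e x] at h7
    have h8 : dth (U e σ x) * (2 * (σ * ht e x - 1 / 2)) -
        dth (V e x) * (2 * (σ * ht e x) * S e x) = 0 := by
      linear_combination h7 + dth (U e σ x) * hσ
    have d1 := dth_nonneg (U e σ x)
    have d2 := dth_nonneg (V e x)
    have h9 : 0 < dth (U e σ x) ∨ 0 < dth (V e x) := by
      by_contra hc
      push Not at hc
      have a1 : U e σ x ≤ -1 / 32 := by
        by_contra hcc
        push Not at hcc
        exact absurd (dth_pos hcc) (not_lt.2 hc.1)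
      have a2 : V e x ≤ -1 / 32 := by
        by_contra hcc
        push Not at hcc
        exact absurd (dth_pos hcc) (not_lt.2 hc.2)
      rw [th_eq_zero a1, th_eq_zero a2] at hf
      norm_num at hf
    have e1 : dth (U e σ x) * (2 * (σ * ht e x - 1 / 2)) ≤ 0 :=
      mul_nonpos_of_nonneg_of_nonpos d1 (by linarith)
    have e2 : 0 ≤ dth (V e x) * (2 * (σ * ht e x) * S e x) := by positivity
    rcases h9 with h | h
    · have : dth (U e σ x) * (2 * (σ * ht e x - 1 / 2)) < 0 :=
        mul_neg_of_pos_of_neg h (by linarith)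
      linarith
    · have : 0 < dth (V e x) * (2 * (σ * ht e x) * S e x) := by positivity
      linarith
  · have c2 : Continuous (fun p => σ * ht e p) := continuous_const.mul (ht_contDiff e).continuous
    filter_upwards [c2.continuousAt.eventually (lt_mem_nhds hy)] with z h2
    rw [mem_room_iff hσ h2.le, sub_neg]

theorem room_smooth {e : Euc n} (he : ‖e‖ = 1) (x : Euc n) (hx : x ∈ frontier (room e)) :
    ∃ F, IsDefFun (room e) x F := by
  have hf := frontier_f hx
  have hcl : x ∈ closure (room e) := frontier_subset_closure hx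
  rcases eq_or_ne (ht e x) 0 with h0 | h0
  · have h1 := closure_middle hcl h0
    have h2 : S e x / 2 + (|ht e x| - 1 / 2) ^ 2 - 1 < -1 / 32 := by
      rw [h0, abs_zero]
      linarith
    refine ⟨_, def_V he h2 ?_⟩
    unfold f at hf
    rw [th_eq_zero h2.le, zero_add] at hf
    exact th_eq_one.1 hf
  · obtain ⟨σ, hσ, hs⟩ := exists_sign e x
    have hσ0 : σ ≠ 0 := by
      rintro rfl
      norm_num at hσ
    have hs' : 0 < σ * ht e x := lt_of_le_of_ne hs (mul_ne_zero hσ0 h0).symm
    have habs : |ht e x| = σ * ht e x := by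
      have h2 : |σ| = 1 := by
        rw [← sq_eq_sq₀ (abs_nonneg _) zero_le_one, sq_abs, hσ, one_pow]
      rw [← abs_of_nonneg hs, abs_mul, h2, one_mul]
    rw [f_eq hσ hs] at hf
    rcases lt_or_ge (V e x) (-1 / 32) with hV | hV
    · refine ⟨_, def_U he hσ hs' hV ?_⟩
      rw [th_eq_zero hV.le, add_zero] at hf
      exact th_eq_one.1 hf
    · rcases lt_or_ge (U e σ x) (-1 / 32) with hU | hU
      · have h2 : S e x / 2 + (|ht e x| - 1 / 2) ^ 2 - 1 < -1 / 32 := by
          rw [habs]; exact hU
        refine ⟨_, def_V he h2 ?_⟩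
        rw [th_eq_zero hU.le, zero_add] at hf
        exact th_eq_one.1 hf
      · exact ⟨_, def_f he hσ hs' hf hV hU⟩

end Pool.Agent.W697.Room
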