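import Pool.Agent.W697.Room.Bdry

set_option autoImplicit false

open Set Filter Topology

namespace Pool.Agent.W697.Room

open Pool.Agent.H800R2
open scoped RealInnerProductSpace ContDiff

variable {n : ℕ}

theorem ht_add (e p q : Euc n) : ht e (p + q) = ht e p + ht e q := by
  unfold ht; exact inner_add_right _ _ _

theorem ht_smul (e p : Euc n) (c : ℝ) : ht e (c • p) = c * ht e p := by
  unfold ht; exact inner_smul_right _ _ _

theorem ht_e {e : Euc n} (he : ‖e‖ = 1) : ht e e = 1 := inner_ee he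

/-- vertical translation -/
theorem ht_vert {e : Euc n} (he : ‖e‖ = 1) (p : Euc n) (c : ℝ) :
    ht e (p + c • e) = ht e p + c := by
  rw [ht_add, ht_smul, ht_e he, mul_one]

theorem S_vert {e : Euc n} (he : ‖e‖ = 1) (p : Euc n) (c : ℝ) : S e (p + c • e) = S e p := by
  unfold S
  rw [ht_vert he, norm_add_sq_real, inner_smul_right, real_inner_comm, inner_e_ht e p, norm_smul,
    he, mul_one, Real.norm_eq_abs, sq_abs]
  ring

theorem room_bounded {e : Euc n} (he : ‖e‖ = 1) : Bornology.IsBounded (room e) := by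
  rw [isBounded_iff_forall_norm_le]
  refine ⟨3, fun p hp => ?_⟩
  obtain ⟨σ, hσ, hs⟩ := exists_sign e p
  have h1 := room_U hσ hs hp
  have hS := S_nonneg he p
  unfold U at h1
  have hy2 : (ht e p) ^ 2 = (σ * ht e p) ^ 2 := by rw [mul_pow, hσ, one_mul]
  have h2 : ‖p‖ ^ 2 = S e p + (σ * ht e p) ^ 2 := by
    rw [← hy2]; unfold S; ring
  have h3 : ‖p‖ ^ 2 ≤ 3 ^ 2 := by nlinarith
  exact le_of_sq_le_sq h3 (by norm_num)

/-- the part above the tip is star shaped to the axis point -/
theorem above_convex {e : Euc n} (he : ‖e‖ = 1) {σ : ℝ} (hσ : σ ^ 2 = 1) :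
    Convex ℝ {p : Euc n | 1 / 2 < σ * ht e p ∧ U e σ p < 0} := by
  have h : {p : Euc n | 1 / 2 < σ * ht e p ∧ U e σ p < 0} =
      {p : Euc n | 1 / 2 < σ * ht e p} ∩ {p : Euc n | U e σ p < 0} := rfl
  rw [h]
  refine Convex.inter ?_ ?_
  · intro p hp q hq a b ha hb hab
    simp only [mem_setOf_eq] at *
    rw [ht_add, ht_smul, ht_smul]
    rcases ha.eq_or_lt with h0 | h0
    · rw [← h0] at hab ⊢
      rw [zero_add] at hab
      rw [hab]
      linarith
    · nlinarith
  · intro p hp q hq a b ha hb hab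
    simp only [mem_setOf_eq] at *
    have hU : ∀ z : Euc n, U e σ z = ‖z‖ ^ 2 / 2 + (ht e z) ^ 2 / 2 - σ * ht e z - 3 / 4 := by
      intro z
      unfold U S
      linear_combination (ht e z) ^ 2 * hσ
    rw [hU] at hp hq ⊢
    rw [ht_add, ht_smul, ht_smul]
    have h1 : ‖a • p + b • q‖ ^ 2 ≤ a * ‖p‖ ^ 2 + b * ‖q‖ ^ 2 := by
      have e1 : a * ‖p‖ ^ 2 + b * ‖q‖ ^ 2 - ‖a • p + b • q‖ ^ 2 = a * b * ‖p - q‖ ^ 2 := by
        rw [norm_add_sq_real, norm_sub_sq_real, norm_smul, norm_smul, real_inner_smul_left,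
          real_inner_smul_right, Real.norm_of_nonneg ha, Real.norm_of_nonneg hb]
        have : b = 1 - a := by linarith
        rw [this]
        ring
      have : 0 ≤ a * b * ‖p - q‖ ^ 2 := by positivity
      linarith
    have h2 : (a * ht e p + b * ht e q) ^ 2 ≤ a * (ht e p) ^ 2 + b * (ht e q) ^ 2 := by
      have e1 : a * (ht e p) ^ 2 + b * (ht e q) ^ 2 - (a * ht e p + b * ht e q) ^ 2 =
          a * b * (ht e p - ht e q) ^ 2 := by
        have : b = 1 - a := by linarith
        rw [this]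
        ring
      have : 0 ≤ a * b * (ht e p - ht e q) ^ 2 := by positivity
      linarith
    rcases ha.eq_or_lt with h0 | h0
    · rw [← h0] at hab ⊢
      rw [zero_add] at hab
      rw [hab]
      simp only [zero_smul, one_smul, zero_add, zero_mul, one_mul]
      exact hq
    · nlinarith

theorem zero_mem {e : Euc n} : (0 : Euc n) ∈ room e := by
  have h1 : ht e (0 : Euc n) = 0 := by unfold ht; exact inner_zero_right _
  have h2 : S e (0 : Euc n) = 0 := by unfold S; rw [h1]; simp
  change f e 0 < 1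
  unfold f V
  rw [h1, h2, th_eq_zero (by norm_num), th_eq_zero (by norm_num)]
  norm_num

/-- the axis segment -/
theorem axis_mem {e : Euc n} (he : ‖e‖ = 1) {c : ℝ} (hc : |c| ≤ 3 / 4) : c • e ∈ room e := by
  have h1 : ht e (c • e) = c := by rw [ht_smul, ht_e he, mul_one]
  have h2 : S e (c • e) = 0 := by
    unfold S
    rw [h1, norm_smul, he, mul_one, Real.norm_eq_abs, sq_abs, sub_self]
  change f e (c • e) < 1
  unfold f V
  rw [h1, h2, th_eq_zero (t := 0 * (1 / 4 - c ^ 2) - (0 - 1) ^ 2 / 2) (by norm_num), add_zero,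
    th_lt_one]
  have := abs_nonneg c
  nlinarith

/-- moving up from a point between the middle plane and the tip -/
theorem up_mem {e : Euc n} (he : ‖e‖ = 1) {σ : ℝ} (hσ : σ ^ 2 = 1) {p : Euc n}
    (hp : p ∈ room e) (h0 : 0 ≤ σ * ht e p) {c : ℝ} (hc : 0 ≤ c)
    (hc2 : σ * ht e p + c ≤ 1 / 2 ∨ (1 / 2 < σ * ht e p + c ∧
      S e p / 2 + (σ * ht e p + c - 1 / 2) ^ 2 - 1 < 0)) :
    p + (σ * c) • e ∈ room e := by
  have e1 : σ * ht e (p + (σ * c) • e) = σ * ht e p + c := by
    rw [ht_vert he]; linear_combination c * hσ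
  have e2 : S e (p + (σ * c) • e) = S e p := S_vert he _ _
  rcases hc2 with h | h
  · rw [mem_room_iff hσ (by rw [e1]; linarith)]
    rw [mem_room_iff hσ h0] at hp
    refine lt_of_le_of_lt (add_le_add (th_mono ?_) (th_mono ?_)) hp
    · unfold U
      rw [e1, e2]
      nlinarith
    · have hy1 : (ht e (p + (σ * c) • e)) ^ 2 = (σ * ht e p + c) ^ 2 := by
        rw [← e1, mul_pow, hσ, one_mul]
      have hy2 : (ht e p) ^ 2 = (σ * ht e p) ^ 2 := by rw [mul_pow, hσ, one_mul]
      unfold V
      rw [e2, hy1, hy2]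
      have hS := S_nonneg he p
      have h3 : (σ * ht e p) ^ 2 ≤ (σ * ht e p + c) ^ 2 := by
        apply pow_le_pow_left₀ h0; linarith
      have h4 : 0 ≤ S e p * ((σ * ht e p + c) ^ 2 - (σ * ht e p) ^ 2) :=
        mul_nonneg hS (by linarith)
      nlinarith
  · rw [above_iff he hσ (by rw [e1]; exact h.1)]
    unfold U
    rw [e1, e2]
    exact h.2

theorem room_connected {e : Euc n} (he : ‖e‖ = 1) : IsConnected (room e) := by
  refine ⟨⟨0, zero_mem⟩, ?_⟩
  refine isPreconnected_of_forall (0 : Euc n) fun p hp => ?_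
  obtain ⟨σ, hσ, hs⟩ := exists_sign e p
  have hσa : |σ| = 1 := by
    rw [← sq_eq_sq₀ (abs_nonneg _) zero_le_one, sq_abs, hσ, one_pow]
  set A : Set (Euc n) := {p : Euc n | 1 / 2 < σ * ht e p ∧ U e σ p < 0} with hA
  have hAsub : A ⊆ room e := fun q hq => (above_iff he hσ hq.1).2 hq.2
  have hAc : IsPreconnected A := (above_convex he hσ).isPreconnected
  -- the axis segment
  set B : Set (Euc n) := segment ℝ (0 : Euc n) ((σ * (3 / 4)) • e) with hB
  have hBsub : B ⊆ room e := by
    rintro q ⟨a, b, ha, hb, hab, rfl⟩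
    rw [smul_zero, zero_add, smul_smul]
    refine axis_mem he ?_
    rw [abs_mul, abs_mul, hσa, abs_of_nonneg hb, one_mul, abs_of_nonneg (by norm_num : (0:ℝ) ≤ 3/4)]
    nlinarith
  have hBc : IsPreconnected B := (convex_segment _ _).isPreconnected
  have htop : (σ * (3 / 4)) • e ∈ A := by
    have h1 : ht e ((σ * (3 / 4)) • e) = σ * (3 / 4) := by rw [ht_smul, ht_e he, mul_one]
    have h2 : S e ((σ * (3 / 4)) • e) = 0 := by
      unfold S
      rw [h1, norm_smul, he, mul_one, Real.norm_eq_abs, sq_abs, sub_self]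
    have h3 : σ * (σ * (3 / 4)) = 3 / 4 := by linear_combination (3 / 4) * hσ
    refine ⟨?_, ?_⟩
    · rw [h1, h3]; norm_num
    · unfold U
      rw [h1, h2, h3]; norm_num
  have hAB : IsPreconnected (B ∪ A) :=
    hBc.union ((σ * (3 / 4)) • e) (right_mem_segment ℝ _ _) htop hAc
  rcases lt_or_ge (1 / 2) (σ * ht e p) with h | h
  · refine ⟨B ∪ A, union_subset hBsub hAsub, Or.inl (left_mem_segment ℝ _ _), Or.inr ?_, hAB⟩
    exact ⟨h, (above_iff he hσ h).1 hp⟩
  · -- move up
    have hU := room_U hσ hs hp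
    have hS2 : S e p / 2 < 1 := by
      unfold U at hU
      nlinarith [sq_nonneg (σ * ht e p - 1 / 2)]
    obtain ⟨δ, hδ0, hδ⟩ : ∃ δ : ℝ, 0 < δ ∧ δ ^ 2 < 1 - S e p / 2 := by
      have h1 : 0 < 1 - S e p / 2 := by linarith
      refine ⟨Real.sqrt ((1 - S e p / 2) / 2), Real.sqrt_pos.2 (by linarith), ?_⟩
      rw [Real.sq_sqrt (by linarith)]
      linarith
    set c := 1 / 2 - σ * ht e p + δ with hc
    have hc0 : 0 < c := by rw [hc]; linarith
    set q := p + (σ * c) • e with hq
    have hqA : q ∈ A := by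
      have e1 : σ * ht e q = 1 / 2 + δ := by
        rw [hq, ht_vert he, hc]; linear_combination (1 / 2 - σ * ht e p + δ) * hσ
      have e2 : S e q = S e p := S_vert he _ _
      refine ⟨by rw [e1]; linarith, ?_⟩
      unfold U
      rw [e1, e2]
      linarith
    set D : Set (Euc n) := segment ℝ q p with hD
    have hDsub : D ⊆ room e := by
      rintro z ⟨a, b, ha, hb, hab, rfl⟩
      have e1 : a • q + b • p = p + (σ * (a * c)) • e := by
        rw [hq]
        have : b = 1 - a := by linarith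
        rw [this]
        module
      rw [e1]
      refine up_mem he hσ hp hs (by positivity) ?_
      rcases le_or_gt (σ * ht e p + a * c) (1 / 2) with h3 | h3
      · exact Or.inl h3
      · refine Or.inr ⟨h3, ?_⟩
        have h4 : a * c ≤ c := by nlinarith
        have h5 : σ * ht e p + a * c - 1 / 2 ≤ δ := by linarith
        have h6 : (σ * ht e p + a * c - 1 / 2) ^ 2 ≤ δ ^ 2 :=
          pow_le_pow_left₀ (by linarith) h5 2
        linarith
    have hDc : IsPreconnected D := (convex_segment _ _).isPreconnected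
    refine ⟨(B ∪ A) ∪ D, union_subset (union_subset hBsub hAsub) hDsub,
      Or.inl (Or.inl (left_mem_segment ℝ _ _)), Or.inr (right_mem_segment ℝ _ _), ?_⟩
    exact hAB.union q (Or.inr hqA) (left_mem_segment ℝ _ _) hDc

theorem room_isSmoothDomain {e : Euc n} (he : ‖e‖ = 1) : IsSmoothDomain (room e) :=
  ⟨room_open e, room_connected he, room_bounded he, room_smooth he⟩

end Pool.Agent.W697.Room
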