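import Pool.Agent.W697.Room.Conn

set_option autoImplicit false

open Set Filter Topology

namespace Pool.Agent.W697.Room

open Pool.Agent.H800R2
open scoped RealInnerProductSpace ContDiff

variable {n : ℕ}

/-- the conserved quantity of the spheroid with centre `(σ/2) e` -/
noncomputable def K (e : Euc n) (σ : ℝ) (p w : Euc n) : ℝ :=
  ‖(ht e w) • (p - (σ / 2) • e) - (ht e p - σ / 2) • w‖ ^ 2 - (ht e w) ^ 2

theorem K_line (e : Euc n) (σ : ℝ) (p w : Euc n) (τ : ℝ) : K e σ (p + τ • w) w = K e σ p w := by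
  unfold K
  have : (ht e w) • (p + τ • w - (σ / 2) • e) - (ht e (p + τ • w) - σ / 2) • w =
      (ht e w) • (p - (σ / 2) • e) - (ht e p - σ / 2) • w := by
    rw [ht_add, ht_smul]
    module
  rw [this]

/-- at the level of the tip -/
theorem K_level {e : Euc n} (he : ‖e‖ = 1) {σ : ℝ} (hσ : σ ^ 2 = 1) {p : Euc n} (w : Euc n)
    (hy : σ * ht e p = 1 / 2) : K e σ p w = (S e p - 1) * (ht e w) ^ 2 := by
  have h1 : ht e p = σ / 2 := by linear_combination σ * hy - (ht e p) * hσ
  have h2 : ‖p - (σ / 2) • e‖ ^ 2 = S e p := by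
    rw [norm_sub_sq_real, inner_smul_right, real_inner_comm, inner_e_ht e p, norm_smul, he,
      mul_one, Real.norm_eq_abs, sq_abs]
    unfold S
    rw [h1]
    ring
  unfold K
  rw [h1, sub_self, zero_smul, sub_zero, norm_smul, mul_pow, h2, Real.norm_eq_abs, sq_abs]
  ring

/-- expansion of the conserved quantity -/
theorem K_expand (e : Euc n) (σ : ℝ) (p w : Euc n) :
    K e σ p w = (ht e w) ^ 2 * ‖p - (σ / 2) • e‖ ^ 2
      - 2 * (ht e w) * (ht e p - σ / 2) * ⟪p - (σ / 2) • e, w⟫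
      + (ht e p - σ / 2) ^ 2 * ‖w‖ ^ 2 - (ht e w) ^ 2 := by
  unfold K
  rw [norm_sub_sq_real, norm_smul, norm_smul, mul_pow, mul_pow, Real.norm_eq_abs, sq_abs,
    Real.norm_eq_abs, sq_abs, real_inner_smul_left, real_inner_smul_right]
  ring

/-- reflection in the spheroid conserves it -/
theorem K_reflect {e : Euc n} (he : ‖e‖ = 1) {σ : ℝ} (hσ : σ ^ 2 = 1) {q w : Euc n}
    (hU : U e σ q = 0) {ν : Euc n}
    (hν : ν = ‖q + (ht e q - σ) • e‖⁻¹ • (q + (ht e q - σ) • e)) :
    K e σ q (w - (2 * ⟪w, ν⟫) • ν) = K e σ q w := by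
  set q' := q - (σ / 2) • e with hq'
  set y' := ht e q - σ / 2 with hy'
  set N := q + (ht e q - σ) • e with hN
  have hN2 : N = q' + y' • e := by rw [hN, hq', hy']; module
  have hyq' : ht e q' = y' := by
    rw [hq', sub_eq_add_neg, ← neg_smul, ht_vert he, hy']; ring
  have hA : ‖q'‖ ^ 2 = 2 - y' ^ 2 := by
    rw [hq', norm_sub_sq_real, inner_smul_right, real_inner_comm, inner_e_ht e q, norm_smul, he,
      mul_one, Real.norm_eq_abs, sq_abs]
    unfold U S at hU
    rw [hy']
    linear_combination 2 * hU + (- 2 * (ht e q) ^ 2 + 1 / 2) * hσ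
  have hNN : ‖N‖ ^ 2 = 2 + 2 * y' ^ 2 := by
    rw [hN2, norm_add_sq_real, inner_smul_right, real_inner_comm, inner_e_ht e q', hyq',
      norm_smul, he, mul_one, Real.norm_eq_abs, sq_abs, hA]
    ring
  have hNpos : 0 < ‖N‖ := by
    have : 0 < ‖N‖ ^ 2 := by rw [hNN]; positivity
    by_contra hc
    have h0 : ‖N‖ = 0 := le_antisymm (not_lt.1 hc) (norm_nonneg _)
    rw [h0] at this
    norm_num at this
  set B := ⟪q', w⟫ with hB
  have hNw : ⟪w, N⟫ = B + y' * ht e w := by
    rw [hN2, inner_add_right, inner_smul_right, real_inner_comm, real_inner_comm e w, ← hB]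
    rfl
  -- the reflected velocity
  set α := 2 * ⟪w, N⟫ / ‖N‖ ^ 2 with hα
  have hw' : w - (2 * ⟪w, ν⟫) • ν = w - α • N := by
    rw [hν, inner_smul_right, smul_smul, hα]
    congr 2
    field_simp
  have hαN : α * (1 + y' ^ 2) = B + y' * ht e w := by
    rw [hα, hNN, hNw]
    field_simp
  rw [hw', K_expand, K_expand, ← hq', ← hy']
  have e1 : ht e (w - α • N) = ht e w - 2 * α * y' := by
    rw [sub_eq_add_neg, ← neg_smul, ht_add, ht_smul, hN2, ht_vert he, hyq']
    ring
  have e2 : ⟪q', w - α • N⟫ = B - 2 * α := by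
    rw [inner_sub_right, inner_smul_right, hN2, inner_add_right, inner_smul_right,
      real_inner_self_eq_norm_sq, hA, real_inner_comm e q', inner_e_ht e q', hyq', ← hB]
    ring
  have e3 : ‖w - α • N‖ ^ 2 = ‖w‖ ^ 2 := by
    rw [norm_sub_sq_real, inner_smul_right, norm_smul, mul_pow, Real.norm_eq_abs, sq_abs, hNN, hNw]
    linear_combination (2 * α) * hαN
  rw [e1, e2, e3, hA]
  linear_combination (-4 * α * y' ^ 2) * hαN

/-- good positions below the level of the tip -/
def Low (e : Euc n) (σ : ℝ) (p : Euc n) : Prop :=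
  σ * ht e p ≤ 1 / 2 ∧ (S e p < 1 ∨ σ * ht e p ≤ 0)

/-- `S` along a line -/
theorem S_line (e p w : Euc n) (τ : ℝ) :
    S e (p + τ • w) = S e p + 2 * τ * (⟪p, w⟫ - ht e p * ht e w) + τ ^ 2 * S e w := by
  unfold S
  rw [ht_add, ht_smul, norm_add_sq_real, inner_smul_right, norm_smul, mul_pow, Real.norm_eq_abs,
    sq_abs]
  ring

/-- start inside the cylinder -/
theorem low_aux {e : Euc n} (he : ‖e‖ = 1) {σ : ℝ} (hσ : σ ^ 2 = 1) {p w : Euc n} {T : ℝ}
    (hT : 0 ≤ T) (hcl : ∀ τ ∈ Icc 0 T, p + τ • w ∈ closure (room e))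
    (hin : ∀ τ ∈ Ioo 0 T, p + τ • w ∈ room e)
    (hy : ∀ τ ∈ Icc 0 T, σ * ht e (p + τ • w) ≤ 1 / 2) (hS : S e p < 1) :
    S e (p + T • w) < 1 ∨ σ * ht e (p + T • w) ≤ 0 ∨
      (S e (p + T • w) = 1 ∧ σ * ht e (p + T • w) = 1 / 2) := by
  by_contra hcon
  push Not at hcon
  obtain ⟨h1, h2, h3⟩ := hcon
  have cS : Continuous (fun τ : ℝ => S e (p + τ • w)) :=
    (S_contDiff e).continuous.comp (by fun_prop)
  have cy : Continuous (fun τ : ℝ => σ * ht e (p + τ • w)) :=
    continuous_const.mul ((ht_contDiff e).continuous.comp (by fun_prop))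
  have hS0 : S e (p + (0 : ℝ) • w) < 1 := by simpa using hS
  obtain ⟨τ1, hτ1, hτ1'⟩ := intermediate_value_Icc hT cS.continuousOn
    (show (1 : ℝ) ∈ Icc (S e (p + (0 : ℝ) • w)) (S e (p + T • w)) from ⟨hS0.le, h1⟩)
  simp only at hτ1'
  have hτ1pos : 0 < τ1 := by
    refine lt_of_le_of_ne hτ1.1 ?_
    rintro rfl
    linarith
  have hring := closure_ring (hcl τ1 hτ1) hτ1'
  have hsq : (ht e (p + τ1 • w)) ^ 2 = (σ * ht e (p + τ1 • w)) ^ 2 := by
    rw [mul_pow, hσ, one_mul]
  rw [hsq] at hring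
  have hyτ1 := hy τ1 hτ1
  rcases lt_or_ge 0 (σ * ht e (p + τ1 • w)) with h4 | h4
  · have h5 : σ * ht e (p + τ1 • w) = 1 / 2 := by nlinarith
    rcases hτ1.2.eq_or_lt with h6 | h6
    · rw [h6] at hτ1' h5
      exact h3 hτ1' h5
    · have h7 := room_V (hin τ1 ⟨hτ1pos, h6⟩)
      unfold V at h7
      rw [hsq, hτ1', h5] at h7
      norm_num at h7
  · obtain ⟨τ2, hτ2, hτ2'⟩ := intermediate_value_Icc hτ1.2 cy.continuousOn
      (show (0 : ℝ) ∈ Icc (σ * ht e (p + τ1 • w)) (σ * ht e (p + T • w)) from ⟨h4, h2.le⟩)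
    simp only at hτ2'
    have hσ0 : σ ≠ 0 := by rintro rfl; norm_num at hσ
    have hy0 : ht e (p + τ2 • w) = 0 := (mul_eq_zero.1 hτ2').resolve_left hσ0
    have h5 := closure_middle (hcl τ2 ⟨hτ1.1.trans hτ2.1, hτ2.2⟩) hy0
    have hSw := S_nonneg he w
    rw [S_line] at h5 hτ1'
    set b := ⟪p, w⟫ - ht e p * ht e w with hb
    have h6 : 0 < 2 * b + τ1 * S e w := by
      by_contra hc
      push Not at hc
      have : τ1 * (2 * b + τ1 * S e w) ≤ 0 := mul_nonpos_of_nonneg_of_nonpos hτ1pos.le hc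
      nlinarith
    have h7 : 0 ≤ (τ2 - τ1) * (2 * b + (τ1 + τ2) * S e w) := by
      refine mul_nonneg (sub_nonneg.2 hτ2.1) ?_
      have : 0 ≤ τ2 * S e w := mul_nonneg (hτ1.1.trans hτ2.1) hSw
      nlinarith
    nlinarith

/-- start in a good position -/
theorem low_step {e : Euc n} (he : ‖e‖ = 1) {σ : ℝ} (hσ : σ ^ 2 = 1) {p w : Euc n} {T : ℝ}
    (hT : 0 ≤ T) (hcl : ∀ τ ∈ Icc 0 T, p + τ • w ∈ closure (room e))
    (hin : ∀ τ ∈ Ioo 0 T, p + τ • w ∈ room e)
    (hy : ∀ τ ∈ Icc 0 T, σ * ht e (p + τ • w) ≤ 1 / 2) (hlow : Low e σ p) :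
    S e (p + T • w) < 1 ∨ σ * ht e (p + T • w) ≤ 0 ∨
      (S e (p + T • w) = 1 ∧ σ * ht e (p + T • w) = 1 / 2) := by
  rcases lt_or_ge (S e p) 1 with hS | hS
  · exact low_aux he hσ hT hcl hin hy hS
  · have hy0 : σ * ht e p ≤ 0 := hlow.2.resolve_left (not_lt.2 hS)
    rcases le_or_gt (σ * ht e (p + T • w)) 0 with h | h
    · exact Or.inr (Or.inl h)
    · have cy : Continuous (fun τ : ℝ => σ * ht e (p + τ • w)) :=
        continuous_const.mul ((ht_contDiff e).continuous.comp (by fun_prop))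
      obtain ⟨τ0, hτ0, hτ0'⟩ := intermediate_value_Icc hT cy.continuousOn
        (show (0 : ℝ) ∈ Icc (σ * ht e (p + (0 : ℝ) • w)) (σ * ht e (p + T • w)) from
          ⟨by simpa using hy0, h.le⟩)
      simp only at hτ0'
      have hσ0 : σ ≠ 0 := by rintro rfl; norm_num at hσ
      have hz : ht e (p + τ0 • w) = 0 := (mul_eq_zero.1 hτ0').resolve_left hσ0
      have h5 := closure_middle (hcl τ0 hτ0) hz
      have hshift : ∀ τ : ℝ, (p + τ0 • w) + τ • w = p + (τ0 + τ) • w := by
        intro τ; module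
      have := low_aux (p := p + τ0 • w) (w := w) (T := T - τ0) he hσ (by linarith [hτ0.2])
        (fun τ hτ => by
          rw [hshift]
          exact hcl _ ⟨by linarith [hτ0.1, hτ.1], by linarith [hτ.2]⟩)
        (fun τ hτ => by
          rw [hshift]
          exact hin _ ⟨by linarith [hτ0.1, hτ.1], by linarith [hτ.2]⟩)
        (fun τ hτ => by
          rw [hshift]
          exact hy _ ⟨by linarith [hτ0.1, hτ.1], by linarith [hτ.2]⟩) (by linarith)
      rw [hshift, show τ0 + (T - τ0) = T by ring] at this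
      exact this

/-- the invariant -/
def Inv (e : Euc n) (σ : ℝ) (p w : Euc n) : Prop :=
  p ∈ closure (room e) ∧ (Low e σ p ∨ (1 / 2 ≤ σ * ht e p ∧ K e σ p w < 0))

/-- one straight piece -/
theorem step {e : Euc n} (he : ‖e‖ = 1) {σ : ℝ} (hσ : σ ^ 2 = 1) {p w : Euc n} {T : ℝ}
    (hT : 0 ≤ T) (hcl : ∀ τ ∈ Icc 0 T, p + τ • w ∈ closure (room e))
    (hin : ∀ τ ∈ Ioo 0 T, p + τ • w ∈ room e) (hI : Inv e σ p w) :
    Low e σ (p + T • w) ∨ (1 / 2 ≤ σ * ht e (p + T • w) ∧ K e σ (p + T • w) w < 0) ∨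
      (S e (p + T • w) = 1 ∧ σ * ht e (p + T • w) = 1 / 2 ∧ 0 ≤ σ * ht e w) := by
  have hlin : ∀ τ : ℝ, σ * ht e (p + τ • w) = σ * ht e p + τ * (σ * ht e w) := by
    intro τ; rw [ht_add, ht_smul]; ring
  have hshift : ∀ τ0 τ : ℝ, (p + τ0 • w) + τ • w = p + (τ0 + τ) • w := by
    intro τ0 τ; module
  rcases hI.2 with hlow | ⟨hup, hK⟩
  · rcases le_or_gt (σ * ht e (p + T • w)) (1 / 2) with h | h
    · -- stays low
      have hy : ∀ τ ∈ Icc 0 T, σ * ht e (p + τ • w) ≤ 1 / 2 := by
        intro τ hτ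
        rw [hlin] at h ⊢
        rcases le_or_gt (σ * ht e w) 0 with h2 | h2
        · have : τ * (σ * ht e w) ≤ 0 := mul_nonpos_of_nonneg_of_nonpos hτ.1 h2
          linarith [hlow.1]
        · have : τ * (σ * ht e w) ≤ T * (σ * ht e w) := mul_le_mul_of_nonneg_right hτ.2 h2.le
          linarith
      rcases low_step he hσ hT hcl hin hy hlow with h1 | h1 | h1
      · exact Or.inl ⟨h, Or.inl h1⟩
      · exact Or.inl ⟨h, Or.inr h1⟩
      · refine Or.inr (Or.inr ⟨h1.1, h1.2, ?_⟩)
        by_contra hc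
        push Not at hc
        have h3 := h1.2
        rw [hlin] at h3
        rcases hT.eq_or_lt with h4 | h4
        · rw [← h4] at h1 h3
          rw [zero_mul, add_zero] at h3
          have h5 : S e p = 1 := by simpa using h1.1
          rcases hlow.2 with h6 | h6 <;> linarith
        · have : T * (σ * ht e w) < 0 := mul_neg_of_pos_of_neg h4 hc
          linarith [hlow.1]
    · -- crosses the level of the tip upwards
      rw [hlin] at h
      have hw : 0 < σ * ht e w := by
        by_contra hc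
        push Not at hc
        have : T * (σ * ht e w) ≤ 0 := mul_nonpos_of_nonneg_of_nonpos hT hc
        linarith [hlow.1]
      set τ0 := (1 / 2 - σ * ht e p) / (σ * ht e w) with hτ0
      have hτ00 : 0 ≤ τ0 := div_nonneg (by linarith [hlow.1]) hw.le
      have hτ0w : τ0 * (σ * ht e w) = 1 / 2 - σ * ht e p := by
        rw [hτ0]; exact div_mul_cancel₀ _ hw.ne'
      have hτ0T : τ0 < T := by
        by_contra hc
        push Not at hc
        have := mul_le_mul_of_nonneg_right hc hw.le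
        linarith
      have hlev : σ * ht e (p + τ0 • w) = 1 / 2 := by rw [hlin]; linarith
      have hy : ∀ τ ∈ Icc 0 τ0, σ * ht e (p + τ • w) ≤ 1 / 2 := by
        intro τ hτ
        rw [hlin]
        have := mul_le_mul_of_nonneg_right hτ.2 hw.le
        linarith
      have hS : S e (p + τ0 • w) < 1 := by
        rcases low_step he hσ hτ00 (fun τ hτ => hcl τ ⟨hτ.1, by linarith [hτ.2]⟩)
          (fun τ hτ => hin τ ⟨hτ.1, by linarith [hτ.2]⟩) hy hlow with h1 | h1 | h1
        · exact h1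
        · linarith
        · rcases hτ00.eq_or_lt with h4 | h4
          · rw [← h4] at h1
            rcases hlow.2 with h6 | h6
            · simpa [← h4] using h6
            · have := h1.2
              rw [hlin] at this
              linarith
          · have h7 := room_V (hin τ0 ⟨h4, hτ0T⟩)
            have hsq : (ht e (p + τ0 • w)) ^ 2 = (σ * ht e (p + τ0 • w)) ^ 2 := by
              rw [mul_pow, hσ, one_mul]
            unfold V at h7
            rw [hsq, h1.1, hlev] at h7
            norm_num at h7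
      refine Or.inr (Or.inl ⟨by rw [hlin]; exact h.le, ?_⟩)
      rw [K_line, ← K_line e σ p w τ0, K_level he hσ w hlev]
      have hw2 : 0 < (ht e w) ^ 2 := by
        have : 0 < (σ * ht e w) ^ 2 := by positivity
        rwa [mul_pow, hσ, one_mul] at this
      exact mul_neg_of_neg_of_pos (by linarith) hw2
  · rcases le_or_gt (1 / 2) (σ * ht e (p + T • w)) with h | h
    · exact Or.inr (Or.inl ⟨h, by rw [K_line]; exact hK⟩)
    · -- comes down
      rw [hlin] at h
      have hw : σ * ht e w < 0 := by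
        by_contra hc
        push Not at hc
        have : 0 ≤ T * (σ * ht e w) := mul_nonneg hT hc
        linarith
      set τ0 := (1 / 2 - σ * ht e p) / (σ * ht e w) with hτ0
      have hτ0w : τ0 * (σ * ht e w) = 1 / 2 - σ * ht e p := by
        rw [hτ0]; exact div_mul_cancel₀ _ hw.ne
      have hτ00 : 0 ≤ τ0 := div_nonneg_of_nonpos (by linarith) hw.le
      have hτ0T : τ0 < T := by
        by_contra hc
        push Not at hc
        have := mul_le_mul_of_nonpos_right hc hw.le
        linarith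
      have hlev : σ * ht e (p + τ0 • w) = 1 / 2 := by rw [hlin]; linarith
      have hS : S e (p + τ0 • w) < 1 := by
        have h1 : K e σ (p + τ0 • w) w < 0 := by rw [K_line]; exact hK
        rw [K_level he hσ w hlev] at h1
        by_contra hc
        push Not at hc
        have : 0 ≤ (S e (p + τ0 • w) - 1) * (ht e w) ^ 2 :=
          mul_nonneg (by linarith) (sq_nonneg _)
        linarith
      have := low_aux (p := p + τ0 • w) (w := w) (T := T - τ0) he hσ (by linarith)
        (fun τ hτ => by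
          rw [hshift]
          exact hcl _ ⟨by linarith [hτ.1], by linarith [hτ.2]⟩)
        (fun τ hτ => by
          rw [hshift]
          exact hin _ ⟨by linarith [hτ.1], by linarith [hτ.2]⟩)
        (fun τ hτ => by
          rw [hshift, hlin]
          have : (τ0 + τ) * (σ * ht e w) = τ0 * (σ * ht e w) + τ * (σ * ht e w) := by ring
          have h2 : τ * (σ * ht e w) ≤ 0 := mul_nonpos_of_nonneg_of_nonpos hτ.1 hw.le
          linarith) hS
      rw [hshift, show τ0 + (T - τ0) = T by ring] at this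
      rw [← hlin] at h
      rcases this with h1 | h1 | h1
      · exact Or.inl ⟨h.le, Or.inl h1⟩
      · exact Or.inl ⟨h.le, Or.inr h1⟩
      · linarith [h1.2]

end Pool.Agent.W697.Room
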