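import Pool.Agent.W697.Room.Dyn

set_option autoImplicit false

open Set Filter Topology

namespace Pool.Agent.W697.Room

open Pool.Agent.H800R2
open scoped RealInnerProductSpace ContDiff

variable {n : ℕ}

/-- the invariant survives a reflection -/
theorem bounce_inv {e : Euc n} (he : ‖e‖ = 1) {σ : ℝ} (hσ : σ ^ 2 = 1) {q w ν : Euc n}
    (hq : q ∈ frontier (room e)) (hν : IsOuterNormal (room e) q ν) (hv : 0 < ⟪w, ν⟫)
    (h : Low e σ q ∨ (1 / 2 ≤ σ * ht e q ∧ K e σ q w < 0) ∨
      (S e q = 1 ∧ σ * ht e q = 1 / 2 ∧ 0 ≤ σ * ht e w)) :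
    Inv e σ q (w - (2 * ⟪w, ν⟫) • ν) := by
  have hcl : q ∈ closure (room e) := frontier_subset_closure hq
  have hf := frontier_f hq
  rcases h with h | ⟨h1, h2⟩ | ⟨h1, h2, h3⟩
  · exact ⟨hcl, Or.inl h⟩
  · rcases h1.eq_or_lt with h4 | h4
    · -- at the level of the tip
      have h5 := K_level he hσ w h4.symm
      rw [h5] at h2
      refine ⟨hcl, Or.inl ⟨h4.symm.le, Or.inl ?_⟩⟩
      by_contra hc
      push Not at hc
      have : 0 ≤ (S e q - 1) * (ht e w) ^ 2 := mul_nonneg (by linarith) (sq_nonneg _)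
      linarith
    · -- on the spheroid
      have hs : 0 ≤ σ * ht e q := by linarith
      rw [f_eq hσ hs] at hf
      have hV : V e q < -1 / 32 := by
        by_contra hc
        push Not at hc
        have h5 := above he hσ h1 hc
        rw [th_eq_zero h5.le, zero_add] at hf
        have h6 := th_eq_one.1 hf
        have h7 := above_V he hσ h4
        linarith
      have hU : U e σ q = 0 := by
        rw [th_eq_zero hV.le, add_zero] at hf
        exact th_eq_one.1 hf
      have hdef := def_U he hσ (by linarith) hV hU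
      obtain ⟨F, hF, hνF⟩ := hν
      have hν2 : ν = ‖q + (ht e q - σ) • e‖⁻¹ • (q + (ht e q - σ) • e) := by
        rw [hνF, hF.normal_unique hdef (room_open e) hq, (hasGradientAt_U e hσ q).gradient]
      refine ⟨hcl, Or.inr ⟨h1, ?_⟩⟩
      rw [K_reflect he hσ hU hν2]
      exact h2
  · -- at the tip
    exfalso
    have habs : |ht e q| = 1 / 2 := by
      have h5 : |σ| = 1 := by
        rw [← sq_eq_sq₀ (abs_nonneg _) zero_le_one, sq_abs, hσ, one_pow]
      have : |σ * ht e q| = 1 / 2 := by rw [h2]; norm_num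
      rwa [abs_mul, h5, one_mul] at this
    have hy : ht e q = σ / 2 := by linear_combination σ * h2 - (ht e q) * hσ
    have hU2 : S e q / 2 + (|ht e q| - 1 / 2) ^ 2 - 1 < -1 / 32 := by
      rw [h1, habs]; norm_num
    have hV : V e q = 0 := by
      unfold f at hf
      rw [th_eq_zero hU2.le, zero_add] at hf
      exact th_eq_one.1 hf
    have hdef := def_V he hU2 hV
    obtain ⟨F, hF, hνF⟩ := hν
    have hg : gradient (V e) q = -(σ • e) := by
      rw [(hasGradientAt_V e q).gradient, h1, hy]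
      have h6 : (1 / 4 - (σ / 2) ^ 2 - (1 - 1) : ℝ) = 0 := by linear_combination (-1 / 4) * hσ
      rw [h6, zero_smul, zero_sub]
      congr 2
      ring
    have hν2 : ν = ‖gradient (V e) q‖⁻¹ • gradient (V e) q := by
      rw [hνF, hF.normal_unique hdef (room_open e) hq]
    have hn : ‖gradient (V e) q‖ = 1 := by
      rw [hg, norm_neg, norm_smul, he, mul_one, Real.norm_eq_abs,
        ← sq_eq_sq₀ (abs_nonneg _) zero_le_one, sq_abs, hσ, one_pow]
    rw [hν2, hn, inv_one, one_smul, hg, inner_neg_right, inner_smul_right, real_inner_comm,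
      inner_e_ht e w] at hv
    linarith

theorem mem_closure_of_Ioo {e p w : Euc n} {T : ℝ} (hT : 0 < T)
    (hin : ∀ τ ∈ Ioo 0 T, p + τ • w ∈ room e) : ∀ τ ∈ Icc 0 T, p + τ • w ∈ closure (room e) := by
  intro τ hτ
  have h1 : τ ∈ closure (Ioo (0 : ℝ) T) := by rwa [closure_Ioo hT.ne]
  have c : Continuous (fun τ : ℝ => p + τ • w) := by fun_prop
  exact map_mem_closure (f := fun τ : ℝ => p + τ • w) c h1 hin

/-- the light from good positions never gets into the pocket -/
theorem photon_dark {e : Euc n} (he : ‖e‖ = 1) {σ : ℝ} (hσ : σ ^ 2 = 1) {p w : Euc n} {t : ℝ}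
    {q : Euc n} (hph : Photon (room e) p w t q) (hI : Inv e σ p w) :
    ¬ (1 < S e q ∧ 0 < σ * ht e q ∧ σ * ht e q < 1 / 2) := by
  induction hph with
  | fly p v t ht0 hin =>
    have key : Low e σ (p + t • v) ∨ (1 / 2 ≤ σ * ht e (p + t • v) ∧ K e σ (p + t • v) v < 0) ∨
      (S e (p + t • v) = 1 ∧ σ * ht e (p + t • v) = 1 / 2 ∧ 0 ≤ σ * ht e v) := by
      rcases ht0.eq_or_lt with h | h
      · subst h
        have hz : p + (0 : ℝ) • v = p := by rw [zero_smul, add_zero]
        rw [hz]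
        rcases hI.2 with h1 | h1
        · exact Or.inl h1
        · exact Or.inr (Or.inl h1)
      · have hin' : ∀ τ ∈ Ioo 0 t, p + τ • v ∈ room e := fun τ hτ => hin τ ⟨hτ.1, hτ.2.le⟩
        exact step he hσ ht0 (mem_closure_of_Ioo h hin') hin' hI
    rintro ⟨h1, h2, h3⟩
    rcases key with h | h | h
    · rcases h.2 with h4 | h4 <;> linarith
    · linarith [h.1]
    · linarith [h.1]
  | bounce p v ν q τ t hτ hin hb hν hv hrec ih =>
    refine ih ?_
    exact bounce_inv he hσ hb hν hv (step he hσ hτ.le (mem_closure_of_Ioo hτ hin) hin hI)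

/-- the pocket -/
def pocket (e : Euc n) (σ : ℝ) : Set (Euc n) :=
  {q | q ∈ room e ∧ 1 < S e q ∧ 0 < σ * ht e q ∧ σ * ht e q < 1 / 2}

theorem pocket_open (e : Euc n) (σ : ℝ) : IsOpen (pocket e σ) := by
  have c1 : Continuous (S e) := (S_contDiff e).continuous
  have c2 : Continuous (fun p => σ * ht e p) := continuous_const.mul (ht_contDiff e).continuous
  exact (room_open e).inter ((isOpen_lt continuous_const c1).inter
    ((isOpen_lt continuous_const c2).inter (isOpen_lt c2 continuous_const)))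

theorem pocket_nonempty {e d : Euc n} (he : ‖e‖ = 1) (hd : ‖d‖ = 1) (hed : ⟪e, d⟫ = 0) {σ : ℝ}
    (hσ : σ ^ 2 = 1) : (pocket e σ).Nonempty := by
  set x := Real.sqrt (3 / 2) • d with hx
  set q := x + (σ * (7 / 16)) • e with hq
  have h0 : ht e x = 0 := by rw [hx, ht_smul]; unfold ht; rw [hed, mul_zero]
  have h1 : ht e q = σ * (7 / 16) := by rw [hq, ht_vert he, h0, zero_add]
  have h2 : S e q = 3 / 2 := by
    rw [hq, S_vert he]
    unfold S
    rw [h0, hx, norm_smul, hd, mul_one, Real.norm_eq_abs, sq_abs, Real.sq_sqrt (by norm_num)]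
    norm_num
  have h3 : σ * ht e q = 7 / 16 := by rw [h1]; linear_combination (7 / 16) * hσ
  have h4 : (ht e q) ^ 2 = 49 / 256 := by rw [h1, mul_pow, hσ]; norm_num
  refine ⟨q, ?_, by rw [h2]; norm_num, by rw [h3]; norm_num, by rw [h3]; norm_num⟩
  rw [mem_room_iff hσ (by rw [h3]; norm_num)]
  have hV : V e q ≤ -1 / 32 := by
    unfold V
    rw [h2, h4]
    norm_num
  have hU : U e σ q ≤ -1 / 32 := by
    unfold U
    rw [h2, h3]
    norm_num
  rw [th_eq_zero hV, th_eq_zero hU]
  norm_num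

/-- from each point of the room one of the two pockets is dark -/
theorem exists_dark {e d : Euc n} (he : ‖e‖ = 1) (hd : ‖d‖ = 1) (hed : ⟪e, d⟫ = 0) {P : Euc n}
    (hP : P ∈ room e) : ∃ D ⊆ room e, IsOpen D ∧ D.Nonempty ∧ ∀ t, Disjoint (front (room e) P t) D := by
  obtain ⟨σ, hσ, hs⟩ := exists_sign e P
  have hσ' : (-σ) ^ 2 = 1 := by rw [neg_sq, hσ]
  refine ⟨pocket e (-σ), fun q hq => hq.1, pocket_open _ _, pocket_nonempty he hd hed hσ', ?_⟩
  intro t
  rw [Set.disjoint_left]
  rintro q ⟨v, _, hq⟩ hq2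
  refine photon_dark he hσ' hq ⟨subset_closure hP, Or.inl ⟨?_, Or.inr ?_⟩⟩ hq2.2
  · linarith
  · linarith

theorem not_dense_of_dark {Ω : Set (Euc n)} {P : Euc n} {D : Set (Euc n)} (hD : D ⊆ Ω)
    (ho : IsOpen D) (hne : D.Nonempty) (hdis : ∀ t, Disjoint (front Ω P t) D) :
    ¬ FrontsBecomeDense Ω P := by
  intro h
  obtain ⟨x, hx⟩ := hne
  obtain ⟨ε, hε, hball⟩ := Metric.isOpen_iff.1 ho x hx
  obtain ⟨T, hT⟩ := h ε hε
  obtain ⟨q, hq, hd⟩ := hT T le_rfl x (hD hx)
  exact Set.disjoint_left.1 (hdis T) hq (hball (by rw [Metric.mem_ball, dist_comm]; exact hd))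

end Pool.Agent.W697.Room
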