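import Pool.Agent.W697.Room.Basic

set_option autoImplicit false

open Set Filter Topology

namespace Pool.Agent.W697.Room

open Pool.Agent.H800R2
open scoped RealInnerProductSpace ContDiff

variable {n : ℕ}

theorem hasGradientAt_ht (e p : Euc n) : HasGradientAt (ht e) e p := by
  rw [hasGradientAt_iff_hasFDerivAt]
  have : ht e = fun p => InnerProductSpace.toDual ℝ (Euc n) e p := by
    funext p
    rw [InnerProductSpace.toDual_apply_apply]
    rfl
  rw [this]
  exact ContinuousLinearMap.hasFDerivAt _

theorem hasGradientAt_normsq (p : Euc n) :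
    HasGradientAt (fun p : Euc n => ‖p‖ ^ 2) ((2 : ℝ) • p) p := by
  rw [hasGradientAt_iff_hasFDerivAt]
  have h := (hasStrictFDerivAt_norm_sq (F := Euc n) p).hasFDerivAt
  refine h.congr_fderiv ?_
  ext v
  simp [InnerProductSpace.toDual_apply_apply, inner_smul_left]

/-- composition of a function of two real variables with height and distance -/
theorem hasGradientAt_S (e p : Euc n) :
    HasGradientAt (S e) ((2 : ℝ) • p - (2 * ht e p) • e) p := by
  have h1 := hasGradientAt_normsq p
  have h2 := hasGradientAt_ht e p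
  rw [hasGradientAt_iff_hasFDerivAt] at h1 h2 ⊢
  have h3 := h1.sub (h2.pow 2)
  refine h3.congr_fderiv ?_
  ext v
  simp [InnerProductSpace.toDual_apply_apply, inner_smul_left, inner_sub_left]

theorem hasGradientAt_U (e : Euc n) {σ : ℝ} (hσ : σ ^ 2 = 1) (p : Euc n) :
    HasGradientAt (U e σ) (p + (ht e p - σ) • e) p := by
  have h1 := hasGradientAt_S e p
  have h2 := hasGradientAt_ht e p
  rw [hasGradientAt_iff_hasFDerivAt] at h1 h2 ⊢
  have h3 : HasFDerivAt (fun p => S e p / 2 + (σ * ht e p - 1 / 2) ^ 2 - 1) _ p :=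
    ((h1.mul_const (1 / 2 : ℝ)).add (((h2.const_mul σ).sub_const (1 / 2)).pow 2)).sub_const 1 |>.congr_of_eventuallyEq
      (Eventually.of_forall fun q => by simp only [Pi.add_apply]; ring)
  refine h3.congr_fderiv ?_
  ext v
  simp only [InnerProductSpace.toDual_apply_apply, inner_smul_left, inner_sub_left, inner_add_left,
    ContinuousLinearMap.add_apply, ContinuousLinearMap.smul_apply, smul_eq_mul,
    RCLike.conj_to_real]
  simp only [Nat.cast_ofNat, Nat.reduceSub, pow_one]
  linear_combination (2 * ht e p * ⟪e, v⟫) * hσ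

theorem hasGradientAt_V (e p : Euc n) :
    HasGradientAt (V e) (((1 / 4 - (ht e p) ^ 2) - (S e p - 1)) • ((2 : ℝ) • p - (2 * ht e p) • e)
      - (2 * ht e p * S e p) • e) p := by
  have h1 := hasGradientAt_S e p
  have h2 := hasGradientAt_ht e p
  rw [hasGradientAt_iff_hasFDerivAt] at h1 h2 ⊢
  have h3 : HasFDerivAt (fun p => S e p * (1 / 4 - (ht e p) ^ 2) - (S e p - 1) ^ 2 / 2) _ p :=
    ((h1.mul ((h2.pow 2).const_sub (1 / 4))).sub
      (((h1.sub_const 1).pow 2).mul_const (1 / 2 : ℝ))).congr_of_eventuallyEq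
      (Eventually.of_forall fun q => by simp only [Pi.sub_apply, Pi.mul_apply, Pi.pow_apply]; ring)
  refine h3.congr_fderiv ?_
  ext v
  simp only [InnerProductSpace.toDual_apply_apply, inner_smul_left, inner_sub_left, inner_add_left,
    ContinuousLinearMap.add_apply, ContinuousLinearMap.smul_apply, smul_eq_mul,
    ContinuousLinearMap.sub_apply, ContinuousLinearMap.neg_apply, RCLike.conj_to_real]
  simp only [Nat.cast_ofNat, Nat.reduceSub, pow_one]
  ring

end Pool.Agent.W697.Room
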